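import Pool.Agent.H99F.Loc

set_option autoImplicit false

/-! The exact identity for the walks which start at a vertex of the domain. -/

namespace Pool.Agent.H99F

open H978R2.Hex Complex Pool.Agent.H99B Pool.Agent.H99C Pool.Agent.H99E

/-- `C` winds around `v` -/
def Enc (v : V) (C : Finset (Sym2 V)) : Prop :=
  ∃ u l, Circ u l ∧ C = edges (u :: (l ++ [u])) ∧ cw v (u :: l) ≠ 0

theorem enc_em' (M : Mv) {v : V} {C : Finset (Sym2 V)} (h : Enc v C) : Enc (M.f v) (em M.f C) := by
  obtain ⟨u, l, h1, rfl, h3⟩ := h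
  refine ⟨M.f u, l.map M.f, M.circ_map h1, ?_, ?_⟩
  · rw [← edges_map]
    simp
  · rw [← List.map_cons, M.cw_map]
    exact h3

theorem enc_em (M : Mv) (v : V) (C : Finset (Sym2 V)) : Enc (M.f v) (em M.f C) ↔ Enc v C := by
  refine ⟨fun h => ?_, enc_em' M⟩
  have h1 := enc_em' M.symm h
  have e : em M.symm.f (em M.f C) = C := em_id M C
  have e2 : M.symm.f (M.f v) = v := M.gf v
  rwa [e, e2] at h1

theorem cvx_em' (M : Mv) {v : V} {C : Finset (Sym2 V)} (h : Cvx v C) : Cvx (M.f v) (em M.f C) := by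
  obtain ⟨r, h1, rfl, h3⟩ := h
  have e : M.f v :: (r.map M.f ++ [M.f v]) = (v :: (r ++ [v])).map M.f := by simp
  refine ⟨r.map M.f, M.circ_map h1, ?_, ?_⟩
  · rw [e, edges_map]
  · rw [e, M.W_map]
    exact h3

theorem cvx_em (M : Mv) (v : V) (C : Finset (Sym2 V)) : Cvx (M.f v) (em M.f C) ↔ Cvx v C := by
  refine ⟨fun h => ?_, cvx_em' M⟩
  have h1 := cvx_em' M.symm h
  have e : em M.symm.f (em M.f C) = C := em_id M C
  have e2 : M.symm.f (M.f v) = v := M.gf v
  rwa [e, e2] at h1

theorem kk_em (c : ℝ) (M : Mv) (v : V) (C : Finset (Sym2 V)) :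
    kk c (M.f v) (em M.f C) = kk c v C := by
  unfold kk
  by_cases h : Cvx v C
  · rw [if_pos h, if_pos ((cvx_em M v C).2 h)]
  · rw [if_neg h, if_neg (fun h' => h ((cvx_em M v C).1 h'))]

open Classical in
/-- the weight of the loops which do not visit `v` -/
noncomputable def lv (c : ℝ) (v : V) (C : Finset (Sym2 V)) : ℝ :=
  if Enc v C then -(2 * Real.cos (8 * c)) else -(2 * Real.cos (4 * c))

theorem lw_em (c : ℝ) (M : Mv) {v : V} (hv : M.f v = (0, 0)) (C : Finset (Sym2 V)) :
    lw c (em M.f C) = lv c v C := by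
  have h1 : Sur (em M.f C) ↔ Enc v C := by
    rw [← enc_em M v C, hv]
    exact Iff.rfl
  unfold lw lv
  by_cases h : Enc v C
  · rw [if_pos h, if_pos (h1.2 h)]
  · rw [if_neg h, if_neg (fun h' => h (h1.1 h'))]

open Classical in
/-- the weights of all loops -/
noncomputable def uw (c : ℝ) (v : V) (C : Finset (Sym2 V)) : ℝ :=
  if ∃ e ∈ C, v ∈ e then kk c v C else lv c v C

theorem LamW_image (M : Mv) (f : Finset (Sym2 V) → ℝ) (x : ℝ) (D : Finset V) :
    LamW f x (D.image M.f) = LamW (fun C => f (em M.f C)) x D := by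
  classical
  unfold LamW
  symm
  refine Finset.sum_nbij' (fun S => S.image (em M.f)) (fun S => S.image (em M.g)) ?_ ?_ ?_ ?_ ?_
  · intro S hS
    exact configs_em M hS
  · intro S hS
    have h1 := configs_em M.symm hS
    have e : (D.image M.f).image M.symm.f = D := image_symm M D
    rw [e] at h1
    exact h1
  · intro S _
    rw [Finset.image_image]
    have : em M.g ∘ em M.f = id := funext (em_id M)
    rw [this, Finset.image_id]
  · intro S _
    rw [Finset.image_image]
    have : em M.f ∘ em M.g = id := funext (em_id M.symm)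
    rw [this, Finset.image_id]
  · intro S _
    rw [Finset.sum_image fun C _ C' _ h => em_inj M h, Finset.prod_image fun C _ C' _ h => em_inj M h]
    rw [Finset.sum_congr rfl fun C _ => em_card M C]

theorem avoid_image (M : Mv) (D : Finset V) (C : Finset (Sym2 V)) :
    avoid (D.image M.f) (em M.f C) = (avoid D C).image M.f := by
  ext u
  rw [mem_avoid, Finset.mem_image, Finset.mem_image]
  constructor
  · rintro ⟨⟨y, hy, rfl⟩, h⟩
    refine ⟨y, mem_avoid.2 ⟨hy, fun e he hye => ?_⟩, rfl⟩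
    exact h (Sym2.map M.f e) (mem_em.2 ⟨e, he, rfl⟩) (Sym2.mem_map.2 ⟨y, hye, rfl⟩)
  · rintro ⟨y, hy, rfl⟩
    rw [mem_avoid] at hy
    refine ⟨⟨y, hy.1, rfl⟩, fun e he hye => ?_⟩
    rw [mem_em] at he
    obtain ⟨e', he', rfl⟩ := he
    rw [Sym2.mem_map] at hye
    obtain ⟨z, hz, hzy⟩ := hye
    rw [M.inj hzy] at hz
    exact hy.2 e' he' hz

theorem edge_em (M : Mv) (v a : V) (C : Finset (Sym2 V)) :
    s(M.f v, M.f a) ∈ em M.f C ↔ s(v, a) ∈ C := by
  rw [mem_em]
  constructor
  · rintro ⟨e', he', h⟩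
    have : Sym2.map M.f e' = Sym2.map M.f s(v, a) := by rw [h, Sym2.map_mk]
    rw [← Sym2.map.injective M.inj this]
    exact he'
  · intro h
    exact ⟨s(v, a), h, by rw [Sym2.map_mk]⟩

open Classical in
/-- transport of the sums over the loops through an edge -/
theorem sum_loops_image (M : Mv) (D : Finset V) (v a : V) (G : Finset (Sym2 V) → ℝ) :
    ∑ C ∈ (loopsIn (D.image M.f)).filter (fun C => s(M.f v, M.f a) ∈ C), G C =
      ∑ C ∈ (loopsIn D).filter (fun C => s(v, a) ∈ C), G (em M.f C) := by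
  symm
  refine Finset.sum_nbij' (em M.f) (em M.g) ?_ ?_ ?_ ?_ ?_
  · intro C hC
    rw [Finset.mem_filter] at hC ⊢
    exact ⟨loopsIn_em M hC.1, (edge_em M v a C).2 hC.2⟩
  · intro C hC
    rw [Finset.mem_filter] at hC ⊢
    have h1 := loopsIn_em M.symm hC.1
    have e : (D.image M.f).image M.symm.f = D := image_symm M D
    rw [e] at h1
    refine ⟨h1, ?_⟩
    have h2 := (edge_em M v a (em M.g C)).1
    apply h2
    have e3 : em M.f (em M.g C) = C := em_id M.symm C
    rw [e3]
    exact hC.2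
  · intro C _
    exact em_id M C
  · intro C _
    exact em_id M.symm C
  · intro C _
    rfl

/-- the two edges of a loop at a vertex -/
theorem two_nbrs {v : V} {C : Finset (Sym2 V)} (hC : IsLoop C) (hv : ∃ e ∈ C, v ∈ e)
    [DecidablePred (fun a : V => s(v, a) ∈ C)] :
    ((nbrs v).filter (fun a => s(v, a) ∈ C)).card = 2 := by
  classical
  obtain ⟨u, k, hk, rfl⟩ := hC
  obtain ⟨e, he, hve⟩ := hv
  have hm : v ∈ u :: k := by
    have := mem_of_edges he hve
    simp only [List.mem_cons, List.mem_append, List.not_mem_nil, or_false] at this ⊢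
    tauto
  obtain ⟨r, hr, her, -⟩ := reroot' hk hm
  obtain ⟨y, t, p, rfl⟩ := circ_form hr
  have hyp : y ≠ p := by
    rintro rfl
    exact (List.nodup_cons.1 (List.nodup_cons.1 hr.nodup).2).1 (by simp)
  have e1 : v :: ((y :: (t ++ [p])) ++ [v]) = v :: y :: (t ++ [p, v]) := by simp
  have hy : s(v, y) ∈ edges (v :: ((y :: (t ++ [p])) ++ [v])) := by
    rw [e1, edges_cons]
    exact Finset.mem_insert_self _ _
  have e2 : (v :: ((y :: (t ++ [p])) ++ [v])).reverse = v :: p :: (t.reverse ++ [y, v]) := by simp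
  have hp : s(v, p) ∈ edges (v :: ((y :: (t ++ [p])) ++ [v])) := by
    rw [← edges_reverse, e2, edges_cons]
    exact Finset.mem_insert_self _ _
  have hc := hr.chain
  have a1 : Adj v y := by
    rw [e1, List.isChain_cons_cons] at hc
    exact hc.1
  have a2 : Adj v p := by
    have h3 : (v :: ((y :: (t ++ [p])) ++ [v])).reverse.IsChain Adj := by
      rw [List.isChain_reverse]
      exact hc.imp (fun a b hab => adj_symm' hab)
    rw [e2, List.isChain_cons_cons] at h3
    exact h3.1
  have e3 : (nbrs v).filter (fun a => s(v, a) ∈ edges (u :: (k ++ [u]))) = {y, p} := by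
    ext a
    rw [Finset.mem_filter, Finset.mem_insert, Finset.mem_singleton, mem_nbrs', ← her]
    constructor
    · rintro ⟨-, h⟩
      exact edge_base hr h
    · rintro (rfl | rfl)
      · exact ⟨a1, hy⟩
      · exact ⟨a2, hp⟩
  rw [e3, Finset.card_pair hyp]

open Classical in
theorem sum_nbrs_loops (D : Finset V) (v : V) (G : Finset (Sym2 V) → ℝ) :
    ∑ a ∈ nbrs v, ∑ C ∈ (loopsIn D).filter (fun C => s(v, a) ∈ C), G C =
      2 * ∑ C ∈ (loopsIn D).filter (fun C => ∃ e ∈ C, v ∈ e), G C := by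
  have h1 : ∑ a ∈ nbrs v, ∑ C ∈ (loopsIn D).filter (fun C => s(v, a) ∈ C), G C =
      ∑ C ∈ (loopsIn D).filter (fun C => ∃ e ∈ C, v ∈ e),
        ∑ _a ∈ (nbrs v).filter (fun a => s(v, a) ∈ C), G C := by
    refine Finset.sum_comm' ?_
    intro a C
    rw [Finset.mem_filter, Finset.mem_filter, Finset.mem_filter]
    constructor
    · rintro ⟨h1, h2, h3⟩
      exact ⟨⟨h1, h3⟩, h2, s(v, a), h3, Sym2.mem_mk_left _ _⟩
    · rintro ⟨⟨h1, h3⟩, h2, -⟩
      exact ⟨h1, h2, h3⟩
  rw [h1, Finset.mul_sum]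
  refine Finset.sum_congr rfl fun C hC => ?_
  rw [Finset.mem_filter, mem_loopsIn] at hC
  rw [Finset.sum_const, two_nbrs hC.1.2 hC.2, nsmul_eq_mul]
  norm_num

/-- the parameters -/
structure Pt (c n x : ℝ) : Prop where
  hn : n = -(2 * Real.cos (4 * c))
  hx : x * (2 * Real.cos c) = 1

namespace Pt

variable {c n x : ℝ} (h : Pt c n x)

include h

theorem cos8 : -(2 * Real.cos (8 * c)) = 2 - n ^ 2 := by
  have e : 8 * c = 2 * (4 * c) := by ring
  rw [e, Real.cos_two_mul, h.hn]
  ring

theorem lw_eq {C : Finset (Sym2 V)} (hC : ¬ Sur C) : lw c C = n := by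
  unfold lw
  rw [if_neg hC, h.hn]

theorem LamW_lw {D E : Finset V} (hN : NoHole D) (hO : (0, 0) ∉ D)
    (hE : E ⊆ D) : LamW (lw c) x E = Lam n x E := by
  rw [Lam_eq]
  refine LamW_congr fun C hC => h.lw_eq (not_sur_of_noHole hN hO ?_)
  obtain ⟨h1, h2⟩ := mem_loopsIn.1 hC
  exact mem_loopsIn.2 ⟨fun e he v hv => hE (h1 e he v hv), h2⟩

/-- the identity for a domain without holes -/
theorem sum_AA_Lam {D E : Finset V} (hN : NoHole D) (hO : (0, 0) ∉ D) (hE : E ⊆ D) :
    ∑ l ∈ AA E, Fc c x l * Lam n x (rest E l.tail) = Lam n x E := by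
  have h1 := sum_AA c x h.hx (D := E) (fun h => hO (hE h))
  rw [h.LamW_lw hN hO hE] at h1
  rw [← h1]
  refine Finset.sum_congr rfl fun l _ => ?_
  rw [h.LamW_lw hN hO (rest_sub.trans hE)]

open Classical in
/-- **bulk start** at the origin -/
theorem org2 {D : Finset V} (hN : NoHole D) (h0 : (0, 0) ∈ D) :
    ∑ l ∈ (AA (D.erase (0, 0))).filter (fun l => l.headD (0, 0) ≠ (0, 0)),
      Fc c x l * Lam n x (rest (D.erase (0, 0)) l) =
    LamW (lw c) x (D.erase (0, 0)) + 1 / 2 *
      ∑ C ∈ (loopsIn D).filter (fun C => s(((0, 0) : V), (1, 0)) ∈ C),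
        kk c (0, 0) C * x ^ C.card * LamW (lw c) x (avoid D C) := by
  have h1 := sum_AA c x h.hx (Finset.notMem_erase (0, 0) D)
  rw [← Finset.sum_filter_add_sum_filter_not (AA (D.erase (0, 0)))
    (fun l => l.headD (0, 0) = (0, 0)), sum_CL c x h.hx (lw c) D h0] at h1
  have h3 : ∑ l ∈ (AA (D.erase (0, 0))).filter (fun l => ¬ l.headD (0, 0) = (0, 0)),
      Fc c x l * LamW (lw c) x (rest (D.erase (0, 0)) l.tail) =
      ∑ l ∈ (AA (D.erase (0, 0))).filter (fun l => l.headD (0, 0) ≠ (0, 0)),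
        Fc c x l * Lam n x (rest (D.erase (0, 0)) l) := by
    refine Finset.sum_congr rfl fun l hl => ?_
    rw [Finset.mem_filter, mem_AA] at hl
    obtain ⟨⟨z, t, rfl, hg, hzE⟩, hz⟩ := hl
    simp only [List.headD_cons] at hz
    have hzD : z ∉ D := fun h => hzE (Finset.mem_erase.2 ⟨hz, h⟩)
    have e : rest (D.erase (0, 0)) (z :: t) = rest (D.erase (0, 0)) t := by
      ext u
      rw [mem_rest, mem_rest, List.mem_cons, not_or]
      constructor
      · rintro ⟨a1, -, a2⟩
        exact ⟨a1, a2⟩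
      · rintro ⟨a1, a2⟩
        exact ⟨a1, fun h => hzE (h ▸ a1), a2⟩
    rw [List.tail_cons, e, Lam_eq]
    congr 1
    refine LamW_congr fun C hC => h.lw_eq ?_
    rintro ⟨v, k, hk, rfl, h0⟩
    have hv := verts_of_loopsIn hC
    apply h0
    have hp := cw_path hk t z hg.chain (by
      intro y hy hm
      have h4 := mem_rest.1 (hv y hm)
      rcases List.mem_cons.1 hy with rfl | hy
      · exact hzE h4.1
      · exact h4.2 hy)
    have h5 : (z :: t).getLast (by simp) = (0, 0) := by
      have := hg.last2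
      rw [List.getLast?_eq_some_getLast (by simp)] at this
      simpa using this
    rw [h5] at hp
    rw [← hp]
    exact hN v k hk (fun y hy => Finset.mem_of_mem_erase (mem_rest.1 (hv y hy)).1) z hzD
  rw [h3] at h1
  linarith

open Classical in
/-- **bulk start** in a given direction -/
theorem dir {D : Finset V} (hN : NoHole D) {v a : V} (hv : v ∈ D) (hab : Adj v a) :
    ∑ l ∈ PE (D.erase v) v a, Fc c x l * Lam n x (rest (D.erase v) l) =
    LamW (lv c v) x (D.erase v) + 1 / 2 *
      ∑ C ∈ (loopsIn D).filter (fun C => s(v, a) ∈ C),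
        kk c v C * x ^ C.card * LamW (lv c v) x (avoid D C) := by
  obtain ⟨M, hb0, ha0⟩ := Mv.exists_mv hab
  have h3 := sum_PEF (fun l => Fc c x l * Lam n x (rest (D.erase v) l)) (D.erase v) hb0 ha0
    (fun _ => True)
  rw [Finset.filter_true_of_mem (fun _ _ => trivial)] at h3
  rw [h3]
  have h0' : ((0, 0) : V) ∈ D.image M.f := by
    rw [← hb0]
    exact Finset.mem_image_of_mem _ hv
  have h1 := h.org2 (hN.image M) h0'
  have e0 : (D.image M.f).erase (0, 0) = (D.erase v).image M.f := by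
    rw [Finset.image_erase M.inj, hb0]
  rw [e0, LamW_image] at h1
  have e2 : (AA ((D.erase v).image M.f)).filter (fun l => l.headD (0, 0) ≠ (0, 0)) =
      (AA ((D.erase v).image M.f)).filter (fun l => l.headD (0, 0) ≠ (0, 0) ∧ True) := by
    refine Finset.filter_congr fun l _ => ?_
    rw [and_true]
  rw [← e2]
  have e3 : ∀ l, Fc c x (l.map M.g) * Lam n x (rest (D.erase v) (l.map M.g)) =
      Fc c x l * Lam n x (rest ((D.erase v).image M.f) l) := by
    intro l
    rw [Fc_map_g, Lam_rest]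
  rw [Finset.sum_congr rfl fun l _ => e3 l, h1]
  have e4 : (fun C => lw c (em M.f C)) = lv c v := funext fun C => lw_em c M hb0 C
  rw [e4]
  congr 2
  have h5 := sum_loops_image M D v a (fun C => kk c (0, 0) C * x ^ C.card *
    LamW (lw c) x (avoid (D.image M.f) C))
  rw [hb0, ha0] at h5
  rw [h5]
  refine Finset.sum_congr rfl fun C _ => ?_
  rw [avoid_image, LamW_image, e4, em_card]
  have e5 : kk c (0, 0) (em M.f C) = kk c v C := by
    rw [← hb0]
    exact kk_em c M v C
  rw [e5]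

theorem bulk {D : Finset V} (hN : NoHole D) {v : V} (hv : v ∈ D) :
    ∑ l ∈ QQ D v, Fc c x l * Lam n x (rest (D.erase v) l) =
      LamW (uw c v) x D + 2 * LamW (uw c v) x (D.erase v) := by
  classical
  rw [sum_QQ, Finset.sum_congr rfl fun a ha => h.dir hN hv (mem_nbrs'.1 ha),
    Finset.sum_add_distrib, ← Finset.mul_sum, sum_nbrs_loops, Finset.sum_const, card_nbrs,
    nsmul_eq_mul, LamW_decomp (uw c v) x D hv]
  have e1 : LamW (uw c v) x (D.erase v) = LamW (lv c v) x (D.erase v) := by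
    refine LamW_congr fun C hC => ?_
    unfold uw
    rw [if_neg]
    rintro ⟨e, he, hve⟩
    exact Finset.notMem_erase v D ((mem_loopsIn.1 hC).1 e he v hve)
  rw [e1]
  have e2 : ∑ C ∈ (loopsIn D).filter (fun C => ∃ e ∈ C, v ∈ e),
      uw c v C * x ^ C.card * LamW (uw c v) x (avoid D C) =
      ∑ C ∈ (loopsIn D).filter (fun C => ∃ e ∈ C, v ∈ e),
      kk c v C * x ^ C.card * LamW (lv c v) x (avoid D C) := by
    refine Finset.sum_congr rfl fun C hC => ?_
    rw [Finset.mem_filter] at hC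
    have e3 : uw c v C = kk c v C := by
      unfold uw
      rw [if_pos hC.2]
    have e4 : LamW (uw c v) x (avoid D C) = LamW (lv c v) x (avoid D C) := by
      refine LamW_congr fun C' hC' => ?_
      unfold uw
      rw [if_neg]
      rintro ⟨e, he, hve⟩
      have h5 := mem_avoid.1 ((mem_loopsIn.1 hC').1 e he v hve)
      obtain ⟨e', he', hve'⟩ := hC.2
      exact h5.2 e' he' hve'
    rw [e3, e4]
  rw [e2]
  push_cast
  ring

end Pt

end Pool.Agent.H99F
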