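import Pool.Agent.H99F.Blk

set_option autoImplicit false

/-! Boundary start (exact), and the coverage of a vertex. -/

namespace Pool.Agent.H99F

open H978R2.Hex Complex Pool.Agent.H99B Pool.Agent.H99C Pool.Agent.H99E

/-- no closed walks if the outer vertex has one neighbour only -/
theorem no_closing {D : Finset V} (hu : ∀ y ∈ D, Adj (0, 0) y → y = (1, 0)) :
    (AA D).filter (fun l => l.headD (0, 0) = (0, 0)) = ∅ := by
  rw [Finset.filter_eq_empty_iff]
  intro l hl hz
  rw [mem_AA] at hl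
  obtain ⟨z, t, rfl, hg, -⟩ := hl
  simp only [List.headD_cons] at hz
  subst hz
  obtain ⟨s, hs⟩ := hg.suff
  match s, hs with
  | [], hs => simp at hs
  | [_], hs =>
    simp only [List.cons_append, List.nil_append, List.cons.injEq] at hs
    obtain ⟨-, rfl⟩ := hs
    exact absurd rfl (hg.nb (1, 0) (0, 0) [] rfl)
  | u :: y :: t', hs =>
    simp only [List.cons_append, List.cons.injEq] at hs
    obtain ⟨rfl, rfl⟩ := hs
    have hc := hg.chain
    rw [List.isChain_cons_cons] at hc
    have hy : y ∈ D := by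
      apply hg.om
      have e : y :: (t' ++ [((1, 0) : V), (0, 0)]) = (y :: (t' ++ [(1, 0)])) ++ [(0, 0)] := by
        simp
      rw [e, List.dropLast_concat]
      simp
    have h2 := hu y hy (adj_symm' hc.1)
    have hn := hg.nodup
    rw [List.nodup_cons] at hn
    apply hn.1
    rw [h2]
    simp

theorem rest_tail {D : Finset V} {l : List V} (hl : l ∈ AA D) : rest D l.tail = rest D l := by
  rw [mem_AA] at hl
  obtain ⟨z, t, rfl, hg, hz⟩ := hl
  rw [List.tail_cons, rest_cons hz]

namespace Pt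

variable {c n x : ℝ} (h : Pt c n x)

include h

/-- **boundary start** at the origin -/
theorem org1 {D : Finset V} (hN : NoHole D) (hO : (0, 0) ∉ D)
    (hu : ∀ y ∈ D, Adj (0, 0) y → y = (1, 0)) {v : V} (hv : v ∈ D) :
    ∑ l ∈ (AA (D.erase v)).filter (fun l => l.headD (0, 0) = v),
        Fc c x l * Lam n x (rest (D.erase v) l) + (Lam n x D - Lam n x (D.erase v)) =
      ∑ l ∈ (AA D).filter (fun l => l.headD (0, 0) ≠ (0, 0)), Fc c x l * cov n x D v l := by
  have h1 := h.sum_AA_Lam hN hO (Finset.Subset.refl D)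
  have h2 := h.sum_AA_Lam hN hO (Finset.erase_subset v D)
  have h1' : ∑ l ∈ AA D, Fc c x l * Lam n x (rest D l) = Lam n x D := by
    rw [← h1]
    exact Finset.sum_congr rfl fun l hl => by rw [rest_tail hl]
  have h2' : ∑ l ∈ AA (D.erase v), Fc c x l * Lam n x (rest (D.erase v) l) =
      Lam n x (D.erase v) := by
    rw [← h2]
    exact Finset.sum_congr rfl fun l hl => by rw [rest_tail hl]
  have h3 := AA_erase hO hv
  rw [← Finset.sum_filter_add_sum_filter_not (AA (D.erase v)) (fun l => l.headD (0, 0) = v)] at h2'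
  have h4 : ∑ l ∈ (AA (D.erase v)).filter (fun l => ¬ l.headD (0, 0) = v),
      Fc c x l * Lam n x (rest (D.erase v) l) = ∑ l ∈ (AA D).filter (fun l => ¬ v ∈ l),
      Fc c x l * Lam n x ((rest D l).erase v) := by
    have h5 : (AA (D.erase v)).filter (fun l => ¬ l.headD (0, 0) = v) =
        (AA D).filter (fun l => ¬ v ∈ l) := h3
    rw [h5]
    exact Finset.sum_congr rfl fun l _ => by rw [rest_erase]
  rw [h4] at h2'
  have h5 : ∑ l ∈ AA D, Fc c x l * cov n x D v l =
      Lam n x D - ∑ l ∈ (AA D).filter (fun l => ¬ v ∈ l),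
        Fc c x l * Lam n x ((rest D l).erase v) := by
    rw [← h1', ← Finset.sum_filter_add_sum_filter_not (AA D) (fun l => v ∈ l),
      ← Finset.sum_filter_add_sum_filter_not (AA D) (fun l => v ∈ l)
        (fun l => Fc c x l * Lam n x (rest D l))]
    have e1 : ∑ l ∈ (AA D).filter (fun l => v ∈ l), Fc c x l * cov n x D v l =
        ∑ l ∈ (AA D).filter (fun l => v ∈ l), Fc c x l * Lam n x (rest D l) := by
      refine Finset.sum_congr rfl fun l hl => ?_
      unfold cov
      rw [if_pos (Finset.mem_filter.1 hl).2]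
    have e2 : ∑ l ∈ (AA D).filter (fun l => ¬ v ∈ l), Fc c x l * cov n x D v l =
        ∑ l ∈ (AA D).filter (fun l => ¬ v ∈ l), Fc c x l * Lam n x (rest D l) -
        ∑ l ∈ (AA D).filter (fun l => ¬ v ∈ l), Fc c x l * Lam n x ((rest D l).erase v) := by
      rw [← Finset.sum_sub_distrib]
      refine Finset.sum_congr rfl fun l hl => ?_
      unfold cov
      rw [if_neg (Finset.mem_filter.1 hl).2]
      ring
    rw [e1, e2]
    ring
  rw [← Finset.sum_filter_add_sum_filter_not (AA D) (fun l => l.headD (0, 0) = (0, 0)),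
    no_closing hu, Finset.sum_empty, zero_add] at h5
  have h7 : ∑ l ∈ (AA D).filter (fun l => ¬ l.headD (0, 0) = (0, 0)),
      Fc c x l * cov n x D v l = ∑ l ∈ (AA D).filter (fun l => l.headD (0, 0) ≠ (0, 0)),
      Fc c x l * cov n x D v l := rfl
  rw [h7] at h5
  linarith

/-- total mass at the origin -/
theorem org0 {D : Finset V} (hN : NoHole D) (hO : (0, 0) ∉ D)
    (hu : ∀ y ∈ D, Adj (0, 0) y → y = (1, 0)) :
    ∑ l ∈ (AA D).filter (fun l => l.headD (0, 0) ≠ (0, 0)), Fc c x l * Lam n x (rest D l) =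
      Lam n x D := by
  have h1 := h.sum_AA_Lam hN hO (Finset.Subset.refl D)
  have h1' : ∑ l ∈ AA D, Fc c x l * Lam n x (rest D l) = Lam n x D := by
    rw [← h1]
    exact Finset.sum_congr rfl fun l hl => by rw [rest_tail hl]
  rw [← Finset.sum_filter_add_sum_filter_not (AA D) (fun l => l.headD (0, 0) = (0, 0)),
    no_closing hu, Finset.sum_empty, zero_add] at h1'
  exact h1'

/-- **total mass** -/
theorem T0 {D : Finset V} (hN : NoHole D) {b a : V} (hab : Adj b a) (hb : b ∉ D)
    (hu : ∀ y ∈ D, Adj b y → y = a) :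
    ∑ l ∈ PE D b a, Fc c x l * Lam n x (rest D l) = Lam n x D := by
  obtain ⟨M, hb0, ha0⟩ := Mv.exists_mv hab
  have hb' : M.g (0, 0) = b := by rw [← hb0, M.gf]
  have hO : (0, 0) ∉ D.image M.f := by
    rw [mem_image_f, hb']
    exact hb
  have hu' : ∀ y ∈ D.image M.f, Adj (0, 0) y → y = (1, 0) := by
    intro y hy hady
    rw [mem_image_f] at hy
    have h4 : Adj b (M.g y) := by
      rw [← M.adj, hb0, M.fg]
      exact hady
    rw [← ha0, ← hu _ hy h4, M.fg]
  have h1 := h.org0 (hN.image M) hO hu'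
  rw [Lam_image] at h1
  have h3 := sum_PEF (fun l => Fc c x l * Lam n x (rest D l)) D hb0 ha0 (fun _ => True)
  rw [Finset.filter_true_of_mem (fun _ _ => trivial)] at h3
  rw [h3]
  have e2 : (AA (D.image M.f)).filter (fun l => l.headD (0, 0) ≠ (0, 0)) =
      (AA (D.image M.f)).filter (fun l => l.headD (0, 0) ≠ (0, 0) ∧ True) := by
    refine Finset.filter_congr fun l _ => ?_
    rw [and_true]
  rw [← e2]
  have e3 : ∀ l, Fc c x (l.map M.g) * Lam n x (rest D (l.map M.g)) =
      Fc c x l * Lam n x (rest (D.image M.f) l) := by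
    intro l
    rw [Fc_map_g, Lam_rest]
  rw [Finset.sum_congr rfl fun l _ => e3 l]
  exact h1

/-- **boundary start** -/
theorem T1 {D : Finset V} (hN : NoHole D) {b a v : V} (hab : Adj b a) (hb : b ∉ D)
    (hu : ∀ y ∈ D, Adj b y → y = a) (hv : v ∈ D) :
    ∑ l ∈ (PE (D.erase v) b a).filter (fun l => l.headD (0, 0) = v),
        Fc c x l * Lam n x (rest (D.erase v) l) + (Lam n x D - Lam n x (D.erase v)) =
      ∑ l ∈ PE D b a, Fc c x l * cov n x D v l := by
  obtain ⟨M, hb0, ha0⟩ := Mv.exists_mv hab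
  have hb' : M.g (0, 0) = b := by rw [← hb0, M.gf]
  have hO : (0, 0) ∉ D.image M.f := by
    rw [mem_image_f, hb']
    exact hb
  have hu' : ∀ y ∈ D.image M.f, Adj (0, 0) y → y = (1, 0) := by
    intro y hy hady
    rw [mem_image_f] at hy
    have h4 : Adj b (M.g y) := by
      rw [← M.adj, hb0, M.fg]
      exact hady
    rw [← ha0, ← hu _ hy h4, M.fg]
  have hv' : M.f v ∈ D.image M.f := Finset.mem_image_of_mem _ hv
  have h1 := h.org1 (hN.image M) hO hu' hv'
  rw [← Finset.image_erase M.inj, Lam_image, Lam_image] at h1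
  have hv0 : M.f v ≠ (0, 0) := by
    rintro h0
    rw [h0] at hv'
    exact hO hv'
  have h2 := sum_PEF (fun l => Fc c x l * Lam n x (rest (D.erase v) l)) (D.erase v) hb0 ha0
    (fun l => l.headD (0, 0) = v)
  have h3 := sum_PEF (fun l => Fc c x l * cov n x D v l) D hb0 ha0 (fun _ => True)
  rw [Finset.filter_true_of_mem (fun _ _ => trivial)] at h3
  rw [h2, h3]
  have e1 : (AA ((D.erase v).image M.f)).filter (fun l => l.headD (0, 0) = M.f v) =
      (AA ((D.erase v).image M.f)).filter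
        (fun l => l.headD (0, 0) ≠ (0, 0) ∧ (l.map M.g).headD (0, 0) = v) := by
    refine Finset.filter_congr fun l hl => ?_
    rw [mem_AA] at hl
    obtain ⟨z, t, rfl, -, -⟩ := hl
    simp only [List.headD_cons, List.map_cons]
    constructor
    · rintro rfl
      exact ⟨hv0, M.gf v⟩
    · rintro ⟨-, h2⟩
      rw [← h2, M.fg]
  have e2 : (AA (D.image M.f)).filter (fun l => l.headD (0, 0) ≠ (0, 0)) =
      (AA (D.image M.f)).filter (fun l => l.headD (0, 0) ≠ (0, 0) ∧ True) := by
    refine Finset.filter_congr fun l _ => ?_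
    rw [and_true]
  rw [← e1, ← e2]
  have e3 : ∀ l, Fc c x (l.map M.g) * Lam n x (rest (D.erase v) (l.map M.g)) =
      Fc c x l * Lam n x (rest ((D.erase v).image M.f) l) := by
    intro l
    rw [Fc_map_g, Lam_rest]
  have e4 : ∀ l, Fc c x (l.map M.g) * cov n x D v (l.map M.g) =
      Fc c x l * cov n x (D.image M.f) (M.f v) l := by
    intro l
    rw [Fc_map_g, cov_image]
  rw [Finset.sum_congr rfl fun l _ => e3 l, Finset.sum_congr rfl fun l _ => e4 l]
  exact h1

end Pt

/-- reversal of the walks from the boundary to `v` -/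
theorem sum_RR_QQ (c x n : ℝ) {D : Finset V} {v : V} (hv : v ∈ D) :
    ∑ l ∈ RR D v, Fc c x l * Lam n x (rest (D.erase v) l) =
      ∑ l ∈ QQ D v, Fc c x l * Lam n x (rest (D.erase v) l) := by
  have e0 : ∀ l : List V, rest (D.erase v) l.reverse = rest (D.erase v) l := by
    intro l
    ext u
    rw [mem_rest, mem_rest, List.mem_reverse]
  refine Finset.sum_nbij' List.reverse List.reverse ?_ ?_ ?_ ?_ ?_
  · intro l hl
    rw [mem_RR hv] at hl
    obtain ⟨w, b, rfl, h, hb⟩ := hl
    rw [mem_QQ]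
    refine ⟨b, w.reverse, by simp, rev_mem h (fun hb' => hb (Finset.mem_of_mem_erase hb'))⟩
  · intro l hl
    rw [mem_QQ] at hl
    obtain ⟨z, w, rfl, h⟩ := hl
    rw [mem_RR hv]
    refine ⟨w.reverse, z, by simp, rev_mem h (Finset.notMem_erase v D), ?_⟩
    intro hz
    apply h.out
    rw [Finset.mem_erase]
    refine ⟨?_, hz⟩
    rintro rfl
    have := (List.nodup_cons.1 h.nodup).1
    simp at this
  · intro l _
    exact List.reverse_reverse l
  · intro l _
    exact List.reverse_reverse l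
  · intro l hl
    rw [mem_RR hv] at hl
    obtain ⟨w, b, rfl, h, hb⟩ := hl
    rw [e0, Fc_reverse c x h.chain h.nodup]

/-- **Theorem**: exact coverage -/
theorem Pt.coverage {c n x : ℝ} (h : Pt c n x) {D : Finset V} (hN : NoHole D)
    (hu : ∀ p ∈ bd D, ∀ y ∈ D, Adj p.1 y → y = p.2) {v : V} (hv : v ∈ D) :
    ∑ p ∈ bd D, ∑ l ∈ PE D p.1 p.2, Fc c x l * cov n x D v l =
      (bd D).card * (Lam n x D - Lam n x (D.erase v)) +
        (LamW (uw c v) x D + 2 * LamW (uw c v) x (D.erase v)) := by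
  rw [← h.bulk hN hv, ← sum_RR_QQ c x n hv, sum_RR, ← nsmul_eq_mul, ← Finset.sum_const,
    ← Finset.sum_add_distrib]
  refine Finset.sum_congr rfl fun p hp => ?_
  obtain ⟨-, h2, h3⟩ := mem_bd.1 hp
  rw [← h.T1 hN h3 h2 (hu p hp) hv]
  ring

/-- the lower bound for all domains without holes -/
theorem coverage_le {c n x : ℝ} (h : Dil c n x) {D : Finset V} (hN : NoHole D) {v : V}
    (hv : v ∈ D) :
    (bd D).card * (Lam n x D - Lam n x (D.erase v)) +
        (LamW (uw c v) x D + 2 * LamW (uw c v) x (D.erase v)) ≤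
    ∑ p ∈ bd D, ∑ l ∈ PE D p.1 p.2, Fc c x l * cov n x D v l := by
  have hp : Pt c n x := ⟨by rw [h.hn], h.hx⟩
  rw [← hp.bulk hN hv, ← sum_RR_QQ c x n hv, sum_RR, ← nsmul_eq_mul, ← Finset.sum_const,
    ← Finset.sum_add_distrib]
  refine Finset.sum_le_sum fun p hp => ?_
  obtain ⟨-, h2, h3⟩ := mem_bd.1 hp
  have := Pool.Agent.H99E.T1 h hN h3 h2 hv
  linarith

/-! ### comparison of the weights -/

theorem LamW_abs_le {f : Finset (Sym2 V) → ℝ} {n x : ℝ} {D : Finset V}
    (hf : ∀ C ∈ loopsIn D, |f C| ≤ n) (hx : 0 ≤ x) : |LamW f x D| ≤ Lam n x D := by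
  rw [Lam_eq]
  unfold LamW
  refine (Finset.abs_sum_le_sum_abs _ _).trans (Finset.sum_le_sum fun S hS => ?_)
  rw [abs_mul, Finset.abs_prod, abs_of_nonneg (pow_nonneg hx _)]
  refine mul_le_mul_of_nonneg_right ?_ (pow_nonneg hx _)
  exact Finset.prod_le_prod (fun C _ => abs_nonneg _) fun C hC =>
    hf C ((mem_configs.1 hS).1 C hC)

theorem LamW_ge {f : Finset (Sym2 V) → ℝ} {n x : ℝ} {D : Finset V} (hn : 0 ≤ n)
    (hf : ∀ C ∈ loopsIn D, n ≤ f C) (hx : 0 ≤ x) : Lam n x D ≤ LamW f x D := by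
  rw [Lam_eq]
  unfold LamW
  refine Finset.sum_le_sum fun S hS => ?_
  refine mul_le_mul_of_nonneg_right ?_ (pow_nonneg hx _)
  exact Finset.prod_le_prod (fun C _ => hn) fun C hC =>
    hf C ((mem_configs.1 hS).1 C hC)

/-- upper bound -/
theorem upper {c n x : ℝ} (hn : n = -(2 * Real.cos (4 * c))) (hx : x * (2 * Real.cos c) = 1)
    (hx0 : 0 ≤ x) (hn1 : 1 ≤ n) (hn2 : n ≤ 2) {D : Finset V} {v : V} (hv : v ∈ D) :
    |LamW (uw c v) x D + 2 * LamW (uw c v) x (D.erase v)| ≤ 3 * Lam n x D := by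
  classical
  have hp : Pt c n x := ⟨hn, hx⟩
  have h8 := hp.cos8
  have h6a := Real.neg_one_le_cos (6 * c)
  have h6b := Real.cos_le_one (6 * c)
  have k5 : -(2 * Real.cos (5 * c)) * (2 * Real.cos c) = n - 2 * Real.cos (6 * c) := by
    have e1 : Real.cos (6 * c) + Real.cos (4 * c) = 2 * Real.cos (5 * c) * Real.cos c := by
      rw [Real.cos_add_cos]
      congr 2
      · ring_nf
      · ring_nf
    rw [hn]
    linear_combination 2 * e1
  have k7 : -(2 * Real.cos (7 * c)) * (2 * Real.cos c) = 2 - n ^ 2 - 2 * Real.cos (6 * c) := by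
    have e1 : Real.cos (8 * c) + Real.cos (6 * c) = 2 * Real.cos (7 * c) * Real.cos c := by
      rw [Real.cos_add_cos]
      congr 2
      · ring_nf
      · ring_nf
    rw [← h8]
    linear_combination 2 * e1
  have hlv : ∀ C, |lv c v C| ≤ n := by
    intro C
    unfold lv
    rw [h8, ← hn, abs_le]
    split_ifs
    · constructor <;> nlinarith
    · constructor <;> linarith
  have hkk : ∀ C, |kk c v C| ≤ 3 * n := by
    intro C
    unfold kk
    rw [k5, k7, abs_le]
    split_ifs
    · constructor <;> linarith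
    · constructor <;> nlinarith
  have hE : |LamW (uw c v) x (D.erase v)| ≤ Lam n x (D.erase v) := by
    refine LamW_abs_le (fun C hC => ?_) hx0
    unfold uw
    rw [if_neg]
    · exact hlv C
    · rintro ⟨e, he, hve⟩
      exact Finset.notMem_erase v D ((mem_loopsIn.1 hC).1 e he v hve)
  rw [LamW_decomp (uw c v) x D hv, Lam_decomp n x D hv]
  have hS : |∑ C ∈ (loopsIn D).filter (fun C => ∃ e ∈ C, v ∈ e),
      uw c v C * x ^ C.card * LamW (uw c v) x (avoid D C)| ≤
      3 * ∑ C ∈ (loopsIn D).filter (fun C => ∃ e ∈ C, v ∈ e),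
      n * x ^ C.card * Lam n x (avoid D C) := by
    rw [Finset.mul_sum]
    refine (Finset.abs_sum_le_sum_abs _ _).trans (Finset.sum_le_sum fun C hC => ?_)
    rw [Finset.mem_filter] at hC
    have e3 : uw c v C = kk c v C := by
      unfold uw
      rw [if_pos hC.2]
    have e4 : |LamW (uw c v) x (avoid D C)| ≤ Lam n x (avoid D C) := by
      refine LamW_abs_le (fun C' hC' => ?_) hx0
      unfold uw
      rw [if_neg]
      · exact hlv C'
      · rintro ⟨e, he, hve⟩
        have h5 := mem_avoid.1 ((mem_loopsIn.1 hC').1 e he v hve)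
        obtain ⟨e', he', hve'⟩ := hC.2
        exact h5.2 e' he' hve'
    rw [e3]
    have hxp : 0 ≤ x ^ C.card := pow_nonneg hx0 _
    calc |kk c v C * x ^ C.card * LamW (uw c v) x (avoid D C)|
        = |kk c v C| * x ^ C.card * |LamW (uw c v) x (avoid D C)| := by
          rw [abs_mul, abs_mul, abs_of_nonneg hxp]
      _ ≤ (3 * n) * x ^ C.card * Lam n x (avoid D C) := by
          refine mul_le_mul (mul_le_mul_of_nonneg_right (hkk C) hxp) e4 (abs_nonneg _) ?_
          positivity
      _ = 3 * (n * x ^ C.card * Lam n x (avoid D C)) := by ring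
  rw [abs_le] at hE hS ⊢
  constructor <;> linarith [hE.1, hE.2, hS.1, hS.2]

/-- lower bound -/
theorem lower {c n x : ℝ} (h : Dil c n x) {D : Finset V} {v : V} (hv : v ∈ D) :
    3 * Lam n x D ≤ LamW (uw c v) x D + 2 * LamW (uw c v) x (D.erase v) := by
  classical
  have hp : Pt c n x := ⟨by rw [h.hn], h.hx⟩
  have h8 := hp.cos8
  have hx0 := h.x_pos.le
  have hn0 := h.n_nonneg
  have hn1 := h.n_le_one
  have hn := h.hn
  -- `t = cos 2 c`
  have ht1 : 1 / 2 ≤ Real.cos (2 * c) := by
    rw [← Real.cos_pi_div_three]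
    refine Real.cos_le_cos_of_nonneg_of_le_pi ?_ ?_ ?_ <;> linarith [h.c1, h.c2, Real.pi_pos]
  have ht2 : Real.cos (2 * c) ^ 2 ≤ 1 / 2 := by
    have e : Real.cos (4 * c) = 2 * Real.cos (2 * c) ^ 2 - 1 := by
      rw [← Real.cos_two_mul]
      ring_nf
    rw [e] at hn
    linarith
  set t := Real.cos (2 * c) with ht
  have e4 : Real.cos (4 * c) = 2 * t ^ 2 - 1 := by
    rw [ht, ← Real.cos_two_mul]
    ring_nf
  have e6 : Real.cos (6 * c) = 4 * t ^ 3 - 3 * t := by
    rw [ht, ← Real.cos_three_mul]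
    ring_nf
  have hnt : n = 2 - 4 * t ^ 2 := by
    rw [hn, e4]
    ring
  have k5 : -(2 * Real.cos (5 * c)) * (2 * Real.cos c) = n - 2 * Real.cos (6 * c) := by
    have e1 : Real.cos (6 * c) + Real.cos (4 * c) = 2 * Real.cos (5 * c) * Real.cos c := by
      rw [Real.cos_add_cos]
      congr 2
      · ring_nf
      · ring_nf
    rw [hn]
    linear_combination 2 * e1
  have k7 : -(2 * Real.cos (7 * c)) * (2 * Real.cos c) = 2 - n ^ 2 - 2 * Real.cos (6 * c) := by
    have e1 : Real.cos (8 * c) + Real.cos (6 * c) = 2 * Real.cos (7 * c) * Real.cos c := by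
      rw [Real.cos_add_cos]
      congr 2
      · ring_nf
      · ring_nf
    rw [← h8]
    linear_combination 2 * e1
  have hlv : ∀ C, n ≤ lv c v C := by
    intro C
    unfold lv
    rw [h8, ← hn]
    split_ifs
    · nlinarith
    · exact le_refl _
  have ht3 : t ≤ 3 / 4 := by nlinarith
  have hkk : ∀ C, 3 * n ≤ kk c v C := by
    intro C
    unfold kk
    rw [k5, k7, e6, hnt]
    split_ifs
    · have : 0 ≤ (2 * t - 1) * (-4 * t ^ 2 + 2 * t + 4) := by
        refine mul_nonneg (by linarith) (by nlinarith)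
      nlinarith
    · have : 0 ≤ (2 * t - 1) * (-8 * t ^ 3 - 8 * t ^ 2 + 10 * t + 8) := by
        refine mul_nonneg (by linarith) ?_
        have : 0 ≤ t := by linarith
        nlinarith
      nlinarith
  have hE : Lam n x (D.erase v) ≤ LamW (uw c v) x (D.erase v) := by
    refine LamW_ge hn0 (fun C hC => ?_) hx0
    unfold uw
    rw [if_neg]
    · exact hlv C
    · rintro ⟨e, he, hve⟩
      exact Finset.notMem_erase v D ((mem_loopsIn.1 hC).1 e he v hve)
  rw [LamW_decomp (uw c v) x D hv, Lam_decomp n x D hv]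
  have hS : 3 * ∑ C ∈ (loopsIn D).filter (fun C => ∃ e ∈ C, v ∈ e),
      n * x ^ C.card * Lam n x (avoid D C) ≤
      ∑ C ∈ (loopsIn D).filter (fun C => ∃ e ∈ C, v ∈ e),
      uw c v C * x ^ C.card * LamW (uw c v) x (avoid D C) := by
    rw [Finset.mul_sum]
    refine Finset.sum_le_sum fun C hC => ?_
    rw [Finset.mem_filter] at hC
    have e3 : uw c v C = kk c v C := by
      unfold uw
      rw [if_pos hC.2]
    have e5 : Lam n x (avoid D C) ≤ LamW (uw c v) x (avoid D C) := by
      refine LamW_ge hn0 (fun C' hC' => ?_) hx0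
      unfold uw
      rw [if_neg]
      · exact hlv C'
      · rintro ⟨e, he, hve⟩
        have h5 := mem_avoid.1 ((mem_loopsIn.1 hC').1 e he v hve)
        obtain ⟨e', he', hve'⟩ := hC.2
        exact h5.2 e' he' hve'
    rw [e3]
    have hxp : 0 ≤ x ^ C.card := pow_nonneg hx0 _
    have hL := Lam_pos hn0 hx0 (avoid D C)
    have hk := hkk C
    calc 3 * (n * x ^ C.card * Lam n x (avoid D C))
        = (3 * n) * x ^ C.card * Lam n x (avoid D C) := by ring
      _ ≤ kk c v C * x ^ C.card * LamW (uw c v) x (avoid D C) := by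
          refine mul_le_mul (mul_le_mul_of_nonneg_right hk hxp) e5 (by linarith) ?_
          exact mul_nonneg (by linarith) hxp
  linarith

open Classical in
/-- the sum with the factor three for the configurations without a loop through `v` -/
theorem LamW_three (f : Finset (Sym2 V) → ℝ) (x : ℝ) (D : Finset V) (v : V) :
    ∑ S ∈ configs D, (if ∃ C ∈ S, ∃ e ∈ C, v ∈ e then 1 else 3) * (∏ C ∈ S, f C) *
      x ^ (∑ C ∈ S, C.card) = LamW f x D + 2 * LamW f x (D.erase v) := by
  unfold LamW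
  have e1 : configs (D.erase v) = (configs D).filter (fun S => ¬ ∃ C ∈ S, ∃ e ∈ C, v ∈ e) := by
    ext S
    rw [mem_configs_erase, Finset.mem_filter]
  rw [e1, Finset.mul_sum, Finset.sum_filter, ← Finset.sum_add_distrib]
  refine Finset.sum_congr rfl fun S _ => ?_
  by_cases h : ∃ C ∈ S, ∃ e ∈ C, v ∈ e
  · rw [if_pos h, if_neg (not_not.2 h)]
    ring
  · rw [if_neg h, if_pos h]
    ring

theorem sum_CC_cov (c n x : ℝ) (D : Finset V) (v : V) :
    ∑ l ∈ CC D, Fc c x l * cov n x D v l =
      ∑ p ∈ bd D, ∑ l ∈ PE D p.1 p.2, Fc c x l * cov n x D v l := by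
  have h2 := sum_CC D (fun _ => True) (fun l => Fc c x l * cov n x D v l)
  simp only [Finset.filter_true] at h2
  exact h2

end Pool.Agent.H99F
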