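import Pool.Agent.H99E.Tot

set_option autoImplicit false

/-! The walks which come back to their start, and the loops through the first edge. -/

namespace Pool.Agent.H99F

open H978R2.Hex Complex Pool.Agent.H99B Pool.Agent.H99C Pool.Agent.H99E

/-- no immediate backtracking -/
def NB : List V → Prop
  | z :: y :: x :: t => z ≠ x ∧ NB (y :: x :: t)
  | _ => True

theorem NB.of_nodup : ∀ l : List V, l.Nodup → NB l
  | [], _ => trivial
  | [_], _ => trivial
  | [_, _], _ => trivial
  | z :: y :: x :: t, h => by
    refine ⟨?_, NB.of_nodup (y :: x :: t) (List.nodup_cons.1 h).2⟩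
    rintro rfl
    exact (List.nodup_cons.1 h).1 (by simp)

theorem W_rev : ∀ (l : List V), l.IsChain Adj → NB l → W l.reverse = - W l
  | [], _, _ => by simp [W]
  | [_], _, _ => by simp [W]
  | [_, _], _, _ => by simp [W]
  | z :: y :: x :: t, hc, hn => by
    have hc1 := List.isChain_cons_cons.1 hc
    have hc2 := List.isChain_cons_cons.1 hc1.2
    have ih := W_rev (y :: x :: t) hc1.2 hn.2
    have e1 : (z :: y :: x :: t).reverse = t.reverse ++ [x, y, z] := by simp
    have e2 : (y :: x :: t).reverse = t.reverse ++ [x, y] := by simp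
    have e3 : W (z :: y :: x :: t) = turn x y z + W (y :: x :: t) := rfl
    have hxz : z ≠ x := hn.1
    rw [e1, W_snoc, ← e2, ih, e3, turn_rev hc1.1 hc2.1 hxz]
    have := turn_rev hc1.1 hc2.1 hxz
    ring

theorem nodup_snoc {v : V} {r : List V} (h : (v :: r).Nodup) : (r ++ [v]).Nodup := by
  have := (List.perm_append_comm (l₁ := r) (l₂ := [v])).nodup_iff
  rw [this]
  simpa using h

theorem NB_closed {v : V} {r : List V} (h : Circ v r) : NB (v :: (r ++ [v])) := by
  obtain ⟨h1, h2, h3⟩ := h
  match r, h1, h2 with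
  | y :: x :: t, _, h2 =>
    refine ⟨?_, NB.of_nodup _ (nodup_snoc h2)⟩
    rintro rfl
    exact (List.nodup_cons.1 h2).1 (by simp)

theorem circ_form {v : V} {r : List V} (h : Circ v r) : ∃ y t p, r = y :: (t ++ [p]) := by
  obtain ⟨h1, h2, h3⟩ := h
  match r, h1 with
  | y :: x :: t, _ =>
    rcases List.eq_nil_or_concat (x :: t) with h4 | ⟨s, p, h4⟩
    · simp at h4
    · rw [List.concat_eq_append] at h4
      exact ⟨y, s, p, by rw [h4]⟩

theorem W_circ {v : V} {r : List V} (h : Circ v r) : W (v :: (r ++ [v])) = 5 ∨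
    W (v :: (r ++ [v])) = 7 ∨ W (v :: (r ++ [v])) = -5 ∨ W (v :: (r ++ [v])) = -7 := by
  obtain ⟨y, t, p, rfl⟩ := circ_form h
  have := W_close h
  have e : v :: ((y :: (t ++ [p])) ++ [v]) = v :: y :: (t ++ [p, v]) := by simp
  rw [e]
  exact this

theorem glast (y : V) (t : List V) (p : V) : (y :: (t ++ [p])).getLast? = some p := by
  rw [← List.cons_append, List.getLast?_append, List.getLast?_singleton, Option.some_or]

theorem closed_rev (v : V) (r : List V) : v :: (r.reverse ++ [v]) = (v :: (r ++ [v])).reverse := by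
  simp

theorem W_circ_rev {v : V} {r : List V} (h : Circ v r) :
    W (v :: (r.reverse ++ [v])) = - W (v :: (r ++ [v])) := by
  rw [closed_rev]
  exact W_rev _ h.chain (NB_closed h)

/-- the loop `C` visits `v` and turns there to its inner side -/
def Cvx (v : V) (C : Finset (Sym2 V)) : Prop :=
  ∃ r, Circ v r ∧ C = edges (v :: (r ++ [v])) ∧
    (W (v :: (r ++ [v])) = 5 ∨ W (v :: (r ++ [v])) = -5)

theorem cvx_iff {v : V} {r : List V} (h : Circ v r) : Cvx v (edges (v :: (r ++ [v]))) ↔
    (W (v :: (r ++ [v])) = 5 ∨ W (v :: (r ++ [v])) = -5) := by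
  constructor
  · rintro ⟨r', h', he, hw⟩
    rcases uniq h.len h.nodup h'.len h'.nodup he with rfl | rfl
    · exact hw
    · rw [W_circ_rev h] at hw
      rcases hw with hw | hw
      · right; linarith
      · left; linarith
  · intro hw
    exact ⟨r, h, rfl, hw⟩

open Classical in
/-- the weight of a loop through the vertex -/
noncomputable def kk (c : ℝ) (v : V) (C : Finset (Sym2 V)) : ℝ :=
  if Cvx v C then -(2 * Real.cos (5 * c)) * (2 * Real.cos c)
  else -(2 * Real.cos (7 * c)) * (2 * Real.cos c)

theorem mem_CL {D : Finset V} {l : List V} :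
    l ∈ (AA (D.erase (0, 0))).filter (fun l => l.headD (0, 0) = (0, 0)) ↔
    ∃ r, l = (0, 0) :: (r ++ [(0, 0)]) ∧ Circ (0, 0) r ∧ r.getLast? = some (1, 0) ∧
      ∀ u ∈ r, u ∈ D := by
  rw [Finset.mem_filter, mem_AA]
  constructor
  · rintro ⟨⟨z, t, rfl, h, hz⟩, h0⟩
    simp only [List.headD_cons] at h0
    subst h0
    obtain ⟨s, hs⟩ := h.suff
    match s, hs with
    | [], hs => simp at hs
    | [_], hs =>
      simp only [List.cons_append, List.nil_append, List.cons.injEq] at hs
      obtain ⟨-, rfl⟩ := hs
      exact absurd rfl (h.nb (1, 0) (0, 0) [] rfl)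
    | u :: y :: t', hs =>
      simp only [List.cons_append, List.cons.injEq] at hs
      obtain ⟨rfl, rfl⟩ := hs
      have hn := h.nodup
      have hc := h.chain
      have ho := h.om
      have e1 : y :: (t' ++ [(1, 0), (0, 0)]) = (y :: (t' ++ [(1, 0)])) ++ [(0, 0)] := by simp
      refine ⟨y :: (t' ++ [(1, 0)]), by simp, ⟨by simp, ?_, ?_⟩, glast _ _ _, ?_⟩
      · rw [e1] at hn
        have := List.perm_append_comm.nodup_iff.1 hn
        simpa using this
      · have e2 : (0, 0) :: (y :: (t' ++ [((1, 0) : V)]) ++ [(0, 0)]) =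
            (0, 0) :: y :: (t' ++ [(1, 0), (0, 0)]) := by simp
        rw [e2]
        exact hc.imp (fun a b hab => adj_symm' hab)
      · intro u hu
        rw [e1, List.dropLast_concat] at ho
        exact Finset.mem_of_mem_erase (ho u hu)
  · rintro ⟨r, rfl, h, hl, hD⟩
    refine ⟨⟨(0, 0), r ++ [(0, 0)], rfl, ⟨?_, ?_, ?_, ?_, ?_⟩, by simp⟩, by simp⟩
    · rcases List.eq_nil_or_concat r with h1 | ⟨s, p, h1⟩
      · rw [h1] at hl
        simp at hl
      · rw [List.concat_eq_append] at h1
        subst h1
        simp only [List.getLast?_append, List.getLast?_singleton, Option.some_or,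
          Option.some.injEq] at hl
        subst hl
        exact ⟨(0, 0) :: s, by simp⟩
    · exact h.chain.imp (fun a b hab => adj_symm' hab)
    · exact nodup_snoc h.nodup
    · intro u hu
      rw [List.dropLast_concat] at hu
      refine Finset.mem_erase.2 ⟨?_, hD u hu⟩
      rintro rfl
      exact (List.nodup_cons.1 h.nodup).1 hu
    · intro y x r' he h0
      obtain ⟨y', t, p, rfl⟩ := circ_form h
      match t, h, he with
      | [], h, he =>
        simp only [List.nil_append, List.cons_append, List.cons.injEq] at he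
        have := (List.nodup_cons.1 h.nodup).1
        apply this
        rw [h0, ← he.2.1]
        simp
      | u :: t, h, he =>
        simp only [List.cons_append, List.cons.injEq] at he
        have := (List.nodup_cons.1 h.nodup).1
        apply this
        rw [h0, ← he.2.1]
        simp

theorem rest_avoid {D : Finset V} {r : List V} :
    rest (D.erase (0, 0)) (r ++ [(0, 0)]) = avoid D (edges ((0, 0) :: (r ++ [(0, 0)]))) := by
  ext u
  rw [mem_rest, mem_avoid, Finset.mem_erase, List.mem_append, List.mem_singleton]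
  constructor
  · rintro ⟨⟨h1, h2⟩, h3⟩
    refine ⟨h2, fun e he hu => ?_⟩
    have := mem_of_edges he hu
    simp only [List.mem_cons, List.mem_append, List.not_mem_nil, or_false] at this
    tauto
  · rintro ⟨h1, h2⟩
    have h3 : u ∉ (0, 0) :: (r ++ [(0, 0)]) := by
      intro hm
      obtain ⟨e, he, hu⟩ := exists_edge (L := (0, 0) :: (r ++ [(0, 0)])) (by simp) hm
      exact h2 e he hu
    simp only [List.mem_cons, List.mem_append, List.not_mem_nil, or_false, not_or] at h3
    exact ⟨⟨h3.1, h1⟩, fun h => by tauto⟩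

theorem edges_closed_rev (v : V) (r : List V) :
    edges (v :: (r.reverse ++ [v])) = edges (v :: (r ++ [v])) := by
  rw [closed_rev, edges_reverse]

/-- an edge of the circuit at its base -/
theorem edge_base {v a y p : V} {t : List V} (h : Circ v (y :: (t ++ [p])))
    (ha : s(v, a) ∈ edges (v :: ((y :: (t ++ [p])) ++ [v]))) : a = y ∨ a = p := by
  have hn := List.nodup_cons.1 h.nodup
  have e : v :: ((y :: (t ++ [p])) ++ [v]) = v :: y :: (t ++ [p, v]) := by simp
  rw [e, edges_cons, Finset.mem_insert] at ha
  rcases ha with ha | ha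
  · left
    rw [Sym2.eq_iff] at ha
    rcases ha with ⟨-, ha⟩ | ⟨ha, -⟩
    · exact ha
    · exfalso
      apply hn.1
      rw [ha]
      simp
  · right
    rw [← edges_reverse] at ha
    have e2 : (y :: (t ++ [p, v])).reverse = v :: p :: (t.reverse ++ [y]) := by simp
    rw [e2] at ha
    refine head_edge ?_ ha
    have e3 : v :: p :: (t.reverse ++ [y]) = v :: (y :: (t ++ [p])).reverse := by simp
    rw [e3, List.nodup_cons, List.nodup_reverse, List.mem_reverse]
    exact hn

/-- the walks which come back, as loops -/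
theorem sum_CL (c x : ℝ) (hx : x * (2 * Real.cos c) = 1) (f : Finset (Sym2 V) → ℝ)
    (D : Finset V) (h0 : (0, 0) ∈ D)
    [DecidablePred (fun C : Finset (Sym2 V) => s(((0, 0) : V), (1, 0)) ∈ C)] :
    ∑ l ∈ (AA (D.erase (0, 0))).filter (fun l => l.headD (0, 0) = (0, 0)),
      Fc c x l * LamW f x (rest (D.erase (0, 0)) l.tail) =
    -(1 / 2) * ∑ C ∈ (loopsIn D).filter (fun C => s(((0, 0) : V), (1, 0)) ∈ C),
      kk c (0, 0) C * x ^ C.card * LamW f x (avoid D C) := by
  classical
  rw [Finset.mul_sum]
  refine Finset.sum_bij (fun l _ => edges l) ?_ ?_ ?_ ?_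
  · intro l hl
    rw [mem_CL] at hl
    obtain ⟨r, rfl, h, hlast, hD⟩ := hl
    rw [Finset.mem_filter, mem_loopsIn]
    refine ⟨⟨fun e he v hv => ?_, ⟨(0, 0), r, h, rfl⟩⟩, ?_⟩
    · have := mem_of_edges he hv
      simp only [List.mem_cons, List.mem_append, List.not_mem_nil, or_false] at this
      rcases this with h1 | h1 | h1
      · rw [h1]; exact h0
      · exact hD v h1
      · rw [h1]; exact h0
    · obtain ⟨y, t, p, rfl⟩ := circ_form h
      rw [glast, Option.some.injEq] at hlast
      subst hlast
      rw [← edges_reverse]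
      have e2 : ((0, 0) :: ((y :: (t ++ [((1, 0) : V)])) ++ [(0, 0)])).reverse =
          (0, 0) :: (1, 0) :: (t.reverse ++ [y, (0, 0)]) := by simp
      rw [e2, edges_cons]
      exact Finset.mem_insert_self _ _
  · intro l hl l' hl' he
    rw [mem_CL] at hl hl'
    obtain ⟨r, rfl, h, hlast, -⟩ := hl
    obtain ⟨r', rfl, h', hlast', -⟩ := hl'
    rcases uniq h.len h.nodup h'.len h'.nodup he with rfl | rfl
    · rfl
    · exfalso
      obtain ⟨y, t, p, rfl⟩ := circ_form h
      have e : (y :: (t ++ [p])).reverse = (p :: t.reverse) ++ [y] := by simp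
      rw [e, List.getLast?_append, List.getLast?_singleton, Option.some_or, Option.some.injEq]
        at hlast'
      rw [glast, Option.some.injEq] at hlast
      have hn := (List.nodup_cons.1 (List.nodup_cons.1 h.nodup).2).1
      apply hn
      rw [hlast', ← hlast]
      simp
  · intro C hC
    rw [Finset.mem_filter, mem_loopsIn] at hC
    obtain ⟨⟨hCD, u, k, hk, rfl⟩, he1⟩ := hC
    have hm : ((0, 0) : V) ∈ u :: k := by
      have := mem_of_edges he1 (Sym2.mem_mk_left _ _)
      simp only [List.mem_cons, List.mem_append, List.not_mem_nil, or_false] at this ⊢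
      tauto
    obtain ⟨r, hr, her, hmem, -⟩ := reroot' hk hm
    rw [← her] at he1 hCD ⊢
    have hrD : ∀ v ∈ r, v ∈ D := by
      intro v hv
      obtain ⟨e, he, hve⟩ := exists_edge (L := (0, 0) :: (r ++ [(0, 0)])) (by simp) (v := v)
        (by simp [hv])
      exact hCD e he v hve
    obtain ⟨y, t, p, rfl⟩ := circ_form hr
    rcases edge_base hr he1 with h1 | h1
    · subst h1
      refine ⟨(0, 0) :: (((1, 0) :: (t ++ [p])).reverse ++ [(0, 0)]), ?_, edges_closed_rev _ _⟩
      rw [mem_CL]
      refine ⟨_, rfl, circ_rev hr, ?_, fun v hv => hrD v (List.mem_reverse.1 hv)⟩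
      have e : (((1, 0) : V) :: (t ++ [p])).reverse = (p :: t.reverse) ++ [(1, 0)] := by simp
      rw [e, List.getLast?_append, List.getLast?_singleton, Option.some_or]
    · subst h1
      refine ⟨(0, 0) :: ((y :: (t ++ [(1, 0)])) ++ [(0, 0)]), ?_, rfl⟩
      rw [mem_CL]
      exact ⟨_, rfl, hr, glast _ _ _, hrD⟩
  · intro l hl
    rw [mem_CL] at hl
    obtain ⟨r, rfl, h, hlast, hD⟩ := hl
    rw [List.tail_cons, rest_avoid, card_circuit h.len h.nodup]
    have hw := W_circ h
    have hc := cvx_iff h
    unfold kk Fc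
    have hlen : ((0, 0) :: (r ++ [((0, 0) : V)])).length - 2 = r.length := by simp
    rw [hlen, pow_succ]
    have key : ∀ q : ℝ, x ^ r.length * q = -(1 / 2) * (-(2 * q) * (2 * Real.cos c) *
        (x ^ r.length * x)) := by
      intro q
      linear_combination (-(q * x ^ r.length)) * hx
    split_ifs with h5
    · rw [hc] at h5
      have e : Real.cos (W ((0, 0) :: (r ++ [((0, 0) : V)])) * c) = Real.cos (5 * c) := by
        rcases h5 with h5 | h5 <;> rw [h5]
        · push_cast
          rfl
        · push_cast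
          rw [neg_mul, Real.cos_neg]
      rw [e]
      linear_combination (LamW f x (avoid D (edges ((0, 0) :: (r ++ [((0, 0) : V)]))))) *
        key (Real.cos (5 * c))
    · rw [hc, not_or] at h5
      have e : Real.cos (W ((0, 0) :: (r ++ [((0, 0) : V)])) * c) = Real.cos (7 * c) := by
        rcases hw with hw | hw | hw | hw
        · exact absurd hw h5.1
        · rw [hw]
          push_cast
          rfl
        · exact absurd hw h5.2
        · rw [hw]
          push_cast
          rw [neg_mul, Real.cos_neg]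
      rw [e]
      linear_combination (LamW f x (avoid D (edges ((0, 0) :: (r ++ [((0, 0) : V)]))))) *
        key (Real.cos (7 * c))

end Pool.Agent.H99F
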